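import Pool.Agent.Helper60.L1Full.Stmts2

/-! Assembly of the classification. -/

namespace DualL1

open MeasureTheory Cardinal
open scoped ENNReal Classical

universe u v w

/-- The four parts of the classification, for one measure `μ`. -/
theorem classification_of (hsuff : ST_SUFF.{u, v}) (hneco : ST_NECO.{u, v, w})
    (hnec : ST_NEC.{u, v, w}) (hriesz : ST_RIESZ.{u, v, w}) (hch : ST_SUFFCH.{u, v})
    (hmar : ST_MAR.{u, v, w}) {Ω : Type u} [MeasurableSpace Ω] (μ : Measure Ω) {𝕜 : Type v}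
    [RCLike 𝕜] :
    ((∀ κ : Cardinal.{u}, ℵ₀ ≤ κ → Cond μ κ) →
      IsoToDual.{max u v, v, max u v} 𝕜 (Lp 𝕜 1 μ)) ∧
    (IsoToDual.{max u v, v, w} 𝕜 (Lp 𝕜 1 μ) →
      ∀ κ : Cardinal.{u}, ℵ₀ ≤ κ → κ ≠ ℵ₁ → Cond μ κ) ∧
    ((𝔠 : Cardinal.{0}) = ℵ₁ → (∀ κ : Cardinal.{u}, ℵ₀ ≤ κ → κ ≠ ℵ₁ → Cond μ κ) →
      IsoToDual.{max u v, v, max u v} 𝕜 (Lp 𝕜 1 μ)) ∧
    (MartinAxiomAlephOne → IsoToDual.{max u v, v, w} 𝕜 (Lp 𝕜 1 μ) →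
      ∀ κ : Cardinal.{u}, ℵ₀ ≤ κ → Cond μ κ) := by
  have key : IsoToDual.{max u v, v, w} 𝕜 (Lp 𝕜 1 μ) →
      ∀ κ : Cardinal.{u}, ℵ₀ ≤ κ → κ ≠ ℵ₁ → Cond μ κ := by
    rintro ⟨Y, i1, i2, i3, e⟩ κ hκ hκ1
    rcases eq_or_lt_of_le hκ with h0 | h0
    · rw [← h0]
      exact hneco 𝕜 μ Y e
    · refine hnec 𝕜 μ Y e κ h0 (fun I hI => ?_)
      rintro ⟨T, c, hc, hT⟩
      refine hriesz 𝕜 I Y T c hc hT ?_
      rw [hI]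
      refine lt_of_le_of_ne ?_ (Ne.symm hκ1)
      rw [← succ_aleph0]
      exact Order.succ_le_of_lt h0
  refine ⟨hsuff 𝕜 μ, key, fun hCH => hch hCH 𝕜 μ, fun hMA h κ hκ => ?_⟩
  by_cases h1 : κ = ℵ₁
  · obtain ⟨Y, i1, i2, i3, e⟩ := h
    refine hnec 𝕜 μ Y e κ (h1 ▸ aleph0_lt_aleph_one) (fun I hI => ?_)
    rintro ⟨T, c, hc, hT⟩
    exact hmar hMA 𝕜 I Y T c hc hT (hI.trans h1)
  · exact key h κ hκ h1

end DualL1
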