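import Pool.Agent.Helper2.DualL1.Defs

/-! Definitions used in the classification of the measures `μ` for which `L¹(μ)` is isomorphic to a
dual Banach space. -/

namespace DualL1

open MeasureTheory Cardinal
open scoped ENNReal

universe u v w

section
variable {Ω : Type u} [MeasurableSpace Ω]

/-- The family `𝒢` generates `μ` on `B` modulo null sets: every measurable subset `E` of `B` agrees,
up to a null set, with `G ∩ B` for some `G` in the `σ`-algebra generated by `𝒢`. -/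
def Generates (μ : Measure Ω) (𝒢 : Set (Set Ω)) (B : Set Ω) : Prop :=
  ∀ E ⊆ B, MeasurableSet E →
    ∃ G, MeasurableSet[MeasurableSpace.generateFrom 𝒢] G ∧ μ (symmDiff E (G ∩ B)) = 0

/-- `A` is measurable, of finite positive measure, and no measurable subset of `A` of positive
measure is generated, modulo null sets, by fewer than `κ` measurable sets (that is, `μ` has Maharam
type at least `κ` on every part of `A`). -/
def Thick (μ : Measure Ω) (κ : Cardinal.{u}) (A : Set Ω) : Prop :=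
  MeasurableSet A ∧ 0 < μ A ∧ μ A ≠ ∞ ∧ ∀ B ⊆ A, MeasurableSet B → 0 < μ B →
    ∀ 𝒢 : Set (Set Ω), (∀ G ∈ 𝒢, MeasurableSet G) → #𝒢 < κ → ¬ Generates μ 𝒢 B

/-- If there is a set of Maharam type everywhere at least `κ`, then there are at least `2 ^ κ` such
sets which pairwise intersect in null sets. -/
def Cond (μ : Measure Ω) (κ : Cardinal.{u}) : Prop :=
  (∃ A, Thick μ κ A) → ∃ 𝒞 : Set (Set Ω), 2 ^ κ ≤ #𝒞 ∧
    𝒞.Pairwise (fun A B => μ (A ∩ B) = 0) ∧ ∀ C ∈ 𝒞, Thick μ κ C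

/-- `A` is homogeneous of type `κ`: `κ`-thick and generated by at most `κ` measurable sets. -/
def Hom (μ : Measure Ω) (κ : Cardinal.{u}) (A : Set Ω) : Prop :=
  Thick μ κ A ∧ ∃ 𝒢 : Set (Set Ω), (∀ G ∈ 𝒢, MeasurableSet G) ∧ #𝒢 ≤ κ ∧ Generates μ 𝒢 A

/-- maximal almost disjoint families of atoms and homogeneous sets -/
def IsHFam (μ : Measure Ω) (𝒟 : Set (Set Ω)) : Prop :=
  (∀ A ∈ 𝒟, (IsAtomOf μ A ∧ μ A ≠ ∞) ∨ ∃ κ, ℵ₀ ≤ κ ∧ Hom μ κ A) ∧
    𝒟.Pairwise (fun A B => μ (A ∩ B) = 0) ∧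
    ∀ B, MeasurableSet B → 0 < μ B → μ B ≠ ∞ → ∃ A ∈ 𝒟, μ (A ∩ B) ≠ 0

end

/-- the fair coin -/
noncomputable def coin : Measure Bool :=
  (2⁻¹ : ℝ≥0∞) • Measure.dirac true + (2⁻¹ : ℝ≥0∞) • Measure.dirac false

instance : IsProbabilityMeasure coin := ⟨by
  simp [coin, ENNReal.inv_two_add_inv_two]⟩

/-- the fair coin measure on `{0,1}^I` -/
noncomputable def coinPi (I : Type*) : Measure (I → Bool) :=
  Measure.infinitePi (fun _ : I => coin)

instance (I : Type*) : IsProbabilityMeasure (coinPi I) := by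
  unfold coinPi; infer_instance

section
variable (𝕜 : Type*) [RCLike 𝕜]

/-- `X` is (isometrically) the completed `ℓ¹`-sum of the spaces `E j`. -/
def IsL1Sum {J : Type*} (E : J → Type*) [∀ j, NormedAddCommGroup (E j)]
    [∀ j, NormedSpace 𝕜 (E j)] (X : Type*) [NormedAddCommGroup X] [NormedSpace 𝕜 X] : Prop :=
  ∃ i : ∀ j, E j →ₗᵢ[𝕜] X,
    (∀ (S : Finset J) (x : ∀ j, E j), ‖∑ j ∈ S, i j (x j)‖ = ∑ j ∈ S, ‖x j‖) ∧
    ∀ M : Submodule 𝕜 X, IsClosed (M : Set X) → (∀ j x, i j x ∈ M) → M = ⊤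

/-- `E` is isometric to a `1`-complemented subspace of `F`. -/
def Compl1 (E F : Type*) [NormedAddCommGroup E] [NormedSpace 𝕜 E] [NormedAddCommGroup F]
    [NormedSpace 𝕜 F] : Prop :=
  ∃ (T : E →L[𝕜] F) (S : F →L[𝕜] E), ‖T‖ ≤ 1 ∧ ‖S‖ ≤ 1 ∧ ∀ x, S (T x) = x

/-- There is a bounded family `y` in `Y`, indexed by `I`, such that all sign patterns on it are
realised (in the real part) by uniformly bounded functionals. -/
def L1K (I : Type*) (Y : Type*) [NormedAddCommGroup Y] [NormedSpace 𝕜 Y] : Prop :=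
  ∃ (C : ℝ) (y : I → Y), (∀ i, ‖y i‖ ≤ 1) ∧ ∀ θ : I → Bool, ∃ z : Y →L[𝕜] 𝕜, ‖z‖ ≤ C ∧
    ∀ i, RCLike.re (z (y i)) = if θ i = true then 1 else -1

end

/-- `ν` is carried by `K`: every clopen set disjoint from `K` is `ν`-null. -/
def CarriedBy {I : Type*} (K : Set (I → Bool)) (ν : Measure (I → Bool)) : Prop :=
  ∀ C : Set (I → Bool), IsClopen C → Disjoint C K → ν C = 0

end DualL1
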