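import Pool.Agent.Helper60.L1Full.Defs

/-! Statements of the modules of the classification of measures with `L¹(μ)` isomorphic to a dual.
Every module `X` proves `theorem st_X : ST_X` (possibly from other statements as hypotheses). -/

namespace DualL1

open MeasureTheory Cardinal
open scoped ENNReal Classical

/-! ### Banach spaces -/

/-- SUM1: an isometric `ℓ¹`-sum is isomorphic to Mathlib's `lp E 1`. -/
def ST_SUM1.{u, v, w, x} : Prop := ∀ (𝕜 : Type v) [RCLike 𝕜] (J : Type u) (E : J → Type w)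
  [∀ j, NormedAddCommGroup (E j)] [∀ j, NormedSpace 𝕜 (E j)] [∀ j, CompleteSpace (E j)]
  (X : Type x) [NormedAddCommGroup X] [NormedSpace 𝕜 X] [CompleteSpace X],
  IsL1Sum 𝕜 E X → Nonempty (X ≃L[𝕜] lp E 1)

/-- SUM2: iterated `ℓ¹`-sums. -/
def ST_SUM2.{u, u', v, w, w', x} : Prop := ∀ (𝕜 : Type v) [RCLike 𝕜] (J : Type u)
  (E : J → Type w) [∀ j, NormedAddCommGroup (E j)] [∀ j, NormedSpace 𝕜 (E j)]
  (X : Type x) [NormedAddCommGroup X] [NormedSpace 𝕜 X]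
  (Q : J → Type u') (F : ∀ j, Q j → Type w') [∀ j q, NormedAddCommGroup (F j q)]
  [∀ j q, NormedSpace 𝕜 (F j q)],
  IsL1Sum 𝕜 E X → (∀ j, IsL1Sum 𝕜 (F j) (E j)) →
    IsL1Sum 𝕜 (fun p : (Σ j, Q j) => F p.1 p.2) X

/-- SUM3: change of the index set. -/
def ST_SUM3.{u, u', v, w, x} : Prop := ∀ (𝕜 : Type v) [RCLike 𝕜] (J : Type u) (J' : Type u')
  (e : J' ≃ J) (E : J → Type w) [∀ j, NormedAddCommGroup (E j)] [∀ j, NormedSpace 𝕜 (E j)]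
  (X : Type x) [NormedAddCommGroup X] [NormedSpace 𝕜 X],
  IsL1Sum 𝕜 E X → IsL1Sum 𝕜 (fun j' => E (e j')) X

/-- SUM4: `lp E 1` is the `ℓ¹`-sum. -/
def ST_SUM4.{u, v, w} : Prop := ∀ (𝕜 : Type v) [RCLike 𝕜] (J : Type u) (E : J → Type w)
  [∀ j, NormedAddCommGroup (E j)] [∀ j, NormedSpace 𝕜 (E j)],
  IsL1Sum 𝕜 E (lp E 1)

/-- SUM5: complemented subspaces of `ℓ¹`-sums along an injection of the index sets. -/
def ST_SUM5.{u, u', v, w, w'} : Prop := ∀ (𝕜 : Type v) [RCLike 𝕜] (P : Type u) (J : Type u')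
  (E : P → Type w) [∀ j, NormedAddCommGroup (E j)] [∀ j, NormedSpace 𝕜 (E j)]
  (F : J → Type w') [∀ j, NormedAddCommGroup (F j)] [∀ j, NormedSpace 𝕜 (F j)]
  (f : P → J), Function.Injective f → (∀ p, Compl1 𝕜 (E p) (F (f p))) →
    Compl1 𝕜 (lp E 1) (lp F 1)

/-- SUM6: splitting the index set. -/
def ST_SUM6.{u, v, w} : Prop := ∀ (𝕜 : Type v) [RCLike 𝕜] (J : Type u) (p : J → Prop)
  (E : J → Type w) [∀ j, NormedAddCommGroup (E j)] [∀ j, NormedSpace 𝕜 (E j)],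
  Nonempty (lp E 1 ≃L[𝕜]
    (lp (fun j : {j // p j} => E j) 1 × lp (fun j : {j // ¬ p j} => E j) 1))

/-- PEL: Pełczyński's decomposition method for `ℓ¹`-sums. -/
def ST_PEL.{v, w, x} : Prop := ∀ (𝕜 : Type v) [RCLike 𝕜] (X : Type w) (Z : Type x)
  [NormedAddCommGroup X] [NormedSpace 𝕜 X] [CompleteSpace X]
  [NormedAddCommGroup Z] [NormedSpace 𝕜 Z] [CompleteSpace Z],
  Compl1 𝕜 X Z → Compl1 𝕜 Z X → Nonempty (Z ≃L[𝕜] lp (fun _ : ℕ => Z) 1) →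
    Nonempty (X ≃L[𝕜] Z)

/-- C0: the dual of a `c₀`-sum is the `ℓ¹`-sum of the duals. -/
def ST_C0.{u, v, w} : Prop := ∀ (𝕜 : Type v) [RCLike 𝕜] (J : Type u) (E : J → Type w)
  [∀ j, NormedAddCommGroup (E j)] [∀ j, NormedSpace 𝕜 (E j)] [∀ j, CompleteSpace (E j)],
  ∃ (Y : Type max u w) (_ : NormedAddCommGroup Y) (_ : NormedSpace 𝕜 Y) (_ : CompleteSpace Y),
    IsL1Sum 𝕜 (fun j => (E j →L[𝕜] 𝕜)) (Y →L[𝕜] 𝕜)

/-- DPROD: products of (spaces isomorphic to) duals are (isomorphic to) duals. -/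
def ST_DPROD.{v, x, y, w} : Prop := ∀ (𝕜 : Type v) [RCLike 𝕜] (X : Type x) (X' : Type y)
  [NormedAddCommGroup X] [NormedSpace 𝕜 X] [NormedAddCommGroup X'] [NormedSpace 𝕜 X'],
  IsoToDual.{x, v, w} 𝕜 X → IsoToDual.{y, v, w} 𝕜 X' → IsoToDual.{max x y, v, w} 𝕜 (X × X')

/-- PREDUAL: the abstract predual argument. `Z` below is the dual of the `c₀`-sum of the spaces
`Y j`, each repeated countably often. -/
def ST_PREDUAL.{u, v} : Prop := ∀ (𝕜 : Type v) [RCLike 𝕜] (J : Type u) (Y : J → Type max u v)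
  [∀ j, NormedAddCommGroup (Y j)] [∀ j, NormedSpace 𝕜 (Y j)] [∀ j, CompleteSpace (Y j)]
  (Q : J → Type u) (F : ∀ j, Q j → Type max u v) [∀ j q, NormedAddCommGroup (F j q)]
  [∀ j q, NormedSpace 𝕜 (F j q)] [∀ j q, CompleteSpace (F j q)]
  (X : Type max u v) [NormedAddCommGroup X] [NormedSpace 𝕜 X] [CompleteSpace X],
  (∀ j, IsL1Sum 𝕜 (F j) (Y j →L[𝕜] 𝕜)) →
  Compl1 𝕜 X (lp (fun p : (Σ j : J, ℕ × Q j) => F p.1 p.2.2) 1) →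
  Compl1 𝕜 (lp (fun p : (Σ j : J, ℕ × Q j) => F p.1 p.2.2) 1) X →
  IsoToDual.{max u v, v, max u v} 𝕜 X

/-! ### Measure theory -/

/-- REAL: if every part of `B` can be split non-trivially over the `σ`-algebra `m`, then every
`m`-measurable function with values in `[0,1]` is the conditional probability of some `b ⊆ B`. -/
def ST_REAL.{u} : Prop := ∀ {Ω : Type u} (m : MeasurableSpace Ω) [m0 : MeasurableSpace Ω]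
  (μ : Measure Ω) (B : Set Ω), m ≤ m0 → MeasurableSet B → μ B ≠ ∞ →
  (∀ b ⊆ B, MeasurableSet b → 0 < μ b → ∃ b' ⊆ b, MeasurableSet b' ∧
    ∀ G, MeasurableSet[m] G → μ (symmDiff b' (G ∩ b)) ≠ 0) →
  ∀ g : Ω → ℝ≥0∞, Measurable[m] g → (∀ x, g x ≤ 1) →
    ∃ b ⊆ B, MeasurableSet b ∧ ∀ G, MeasurableSet[m] G → μ (b ∩ G) = ∫⁻ x in G ∩ B, g x ∂μ

/-- MAPS: every probability measure on `{0,1}^I`, `#I ≤ κ`, is the distribution of a measurable map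
on a given `κ`-thick set. -/
def ST_MAPS.{u} : Prop := ∀ {Ω : Type u} [MeasurableSpace Ω] (μ : Measure Ω) (κ : Cardinal.{u})
  (B : Set Ω), ℵ₀ ≤ κ → Thick μ κ B → ∀ I : Type u, #I ≤ κ →
  ∀ ν : Measure (I → Bool), IsProbabilityMeasure ν →
    ∃ φ : Ω → (I → Bool), Measurable φ ∧ (μ.restrict B).map φ = μ B • ν

/-- PULL: composition with a measurable map embeds `L¹` of the image measure as a
`1`-complemented subspace (the projection is the conditional expectation). -/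
def ST_PULL.{u, v} : Prop := ∀ (𝕜 : Type v) [RCLike 𝕜] {Ω Ω' : Type u} [MeasurableSpace Ω]
  [MeasurableSpace Ω'] (μ : Measure Ω) (ν : Measure Ω') (c : ℝ≥0∞) (φ : Ω → Ω'),
  IsFiniteMeasure μ → c ≠ 0 → c ≠ ∞ → Measurable φ → μ.map φ = c • ν →
    Compl1 𝕜 (Lp 𝕜 1 ν) (Lp 𝕜 1 μ)

/-- PULLB: in the situation of PULL, if moreover all measurable sets come from `Ω'` modulo null
sets, then also `L¹(μ)` is `1`-complemented in (indeed isometric to) `L¹(ν)`. -/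
def ST_PULLB.{u, v} : Prop := ∀ (𝕜 : Type v) [RCLike 𝕜] {Ω Ω' : Type u} [MeasurableSpace Ω]
  [MeasurableSpace Ω'] (μ : Measure Ω) (ν : Measure Ω') (c : ℝ≥0∞) (φ : Ω → Ω'),
  IsFiniteMeasure μ → c ≠ 0 → c ≠ ∞ → Measurable φ → μ.map φ = c • ν →
  (∀ E, MeasurableSet E → ∃ C, MeasurableSet C ∧ μ (symmDiff E (φ ⁻¹' C)) = 0) →
    Compl1 𝕜 (Lp 𝕜 1 μ) (Lp 𝕜 1 ν)

/-- GEN: a set generated by at most `#I` sets has its `L¹` complemented in `L¹(ν)` for a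
probability measure `ν` on `{0,1}^I`. -/
def ST_GEN.{u, v} : Prop := ∀ (𝕜 : Type v) [RCLike 𝕜] {Ω : Type u} [MeasurableSpace Ω]
  (μ : Measure Ω) (A : Set Ω) (𝒢 : Set (Set Ω)) (I : Type u), MeasurableSet A → 0 < μ A →
  μ A ≠ ∞ → (∀ G ∈ 𝒢, MeasurableSet G) → Generates μ 𝒢 A → Nonempty I → #𝒢 ≤ #I →
    ∃ ν : Measure (I → Bool), IsProbabilityMeasure ν ∧
      Compl1 𝕜 (Lp 𝕜 1 (μ.restrict A)) (Lp 𝕜 1 ν)

/-- EMB: `L¹(ν)` for a probability measure `ν` on `{0,1}^I`, `#I ≤ κ`, is `1`-complemented in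
`L¹` of any `κ`-thick set. -/
def ST_EMB.{u, v} : Prop := ∀ (𝕜 : Type v) [RCLike 𝕜] {Ω : Type u} [MeasurableSpace Ω]
  (μ : Measure Ω) (κ : Cardinal.{u}) (B : Set Ω), ℵ₀ ≤ κ → Thick μ κ B → ∀ I : Type u,
  #I ≤ κ → ∀ ν : Measure (I → Bool), IsProbabilityMeasure ν →
    Compl1 𝕜 (Lp 𝕜 1 ν) (Lp 𝕜 1 (μ.restrict B))

/-- FINGEN: a set generated by finitely many sets contains an atom. -/
def ST_FINGEN.{u} : Prop := ∀ {Ω : Type u} [MeasurableSpace Ω] (μ : Measure Ω) (B : Set Ω)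
  (𝒢 : Set (Set Ω)), MeasurableSet B → 0 < μ B → μ B ≠ ∞ → (∀ G ∈ 𝒢, MeasurableSet G) →
  𝒢.Finite → Generates μ 𝒢 B → ∃ a ⊆ B, IsAtomOf μ a

/-- COIN: the coin measure on `{0,1}^I` is `#I`-thick. -/
def ST_COIN.{u} : Prop := ∀ I : Type u, Infinite I → Thick (coinPi I) #I Set.univ

/-- HOM: existence of maximal families of atoms and homogeneous sets. -/
def ST_HOM.{u} : Prop := ∀ {Ω : Type u} [MeasurableSpace Ω] (μ : Measure Ω), ∃ 𝒟, IsHFam μ 𝒟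

/-- DEC: `L¹(μ)` is the `ℓ¹`-sum of the pieces. -/
def ST_DEC.{u, v} : Prop := ∀ (𝕜 : Type v) [RCLike 𝕜] {Ω : Type u} [MeasurableSpace Ω]
  (μ : Measure Ω) (𝒟 : Set (Set Ω)), IsHFam μ 𝒟 →
    IsL1Sum 𝕜 (fun A : 𝒟 => Lp 𝕜 1 (μ.restrict A.1)) (Lp 𝕜 1 μ)

/-- DENS: the density of `L¹` of a generated set. -/
def ST_DENS.{u, v} : Prop := ∀ (𝕜 : Type v) [RCLike 𝕜] {Ω : Type u} [MeasurableSpace Ω]
  (μ : Measure Ω) (A : Set Ω) (𝒢 : Set (Set Ω)), MeasurableSet A → μ A ≠ ∞ →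
  (∀ G ∈ 𝒢, MeasurableSet G) → Generates μ 𝒢 A →
    ∃ (N : Type u) (d : N → Lp 𝕜 1 (μ.restrict A)), #N ≤ max #𝒢 ℵ₀ ∧ DenseRange d

/-- CARD: `Cond` counts the pieces of a maximal family. -/
def ST_CARD.{u} : Prop := ∀ {Ω : Type u} [MeasurableSpace Ω] (μ : Measure Ω)
  (𝒟 : Set (Set Ω)), IsHFam μ 𝒟 → ∀ κ : Cardinal.{u}, ℵ₀ ≤ κ → Cond μ κ →
  (∃ A, Thick μ κ A) → 2 ^ κ ≤ #{A : Set Ω // A ∈ 𝒟 ∧ Thick μ κ A}

/-- CARDM: there are at most `2 ^ #I` probability measures on `{0,1}^I`. -/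
def ST_CARDM.{u} : Prop := ∀ I : Type u, Infinite I →
  #{ν : Measure (I → Bool) // IsProbabilityMeasure ν} ≤ 2 ^ #I

/-- CKA: Riesz representation on closed subsets of `{0,1}^I` with measures on the product
`σ`-algebra. -/
def ST_CKA.{u, v} : Prop := ∀ (𝕜 : Type v) [RCLike 𝕜] (I : Type u) (K : Set (I → Bool))
  [CompactSpace K] (Φ : C(K, 𝕜) →L[𝕜] 𝕜), ∃ ν : Measure (I → Bool), IsFiniteMeasure ν ∧
    CarriedBy K ν ∧ ∃ h : (I → Bool) → 𝕜, Integrable h ν ∧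
      ∀ F : C(I → Bool, 𝕜), Φ (F.restrict K) = ∫ x, h x * F x ∂ν

/-- CKB: the dual of `C(K)`, `K ⊆ {0,1}^I` closed, is the `ℓ¹`-sum of the `L¹(m)`, `m` in a maximal
family of mutually singular probability measures carried by `K`, containing a given one. -/
def ST_CKB.{u, v} : Prop := ∀ (𝕜 : Type v) [RCLike 𝕜] (I : Type u) (K : Set (I → Bool))
  [CompactSpace K] (ν₀ : Measure (I → Bool)), IsProbabilityMeasure ν₀ → CarriedBy K ν₀ →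
  ∃ M : Set (Measure (I → Bool)), ν₀ ∈ M ∧ (∀ m ∈ M, IsProbabilityMeasure m ∧ CarriedBy K m) ∧
    M.Pairwise (fun a b => a.MutuallySingular b) ∧
    IsL1Sum 𝕜 (fun m : M => Lp 𝕜 1 m.1) (C(K, 𝕜) →L[𝕜] 𝕜)

/-! ### Set theory -/

/-- FREE: Hajnal's free set theorem for countable set mappings. -/
def ST_FREE.{u} : Prop := ∀ I : Type u, ℵ₁ < #I → ∀ S : I → Set I, (∀ i, (S i).Countable) →
  ∃ Γ : Set I, #Γ = #I ∧ ∀ i ∈ Γ, ∀ j ∈ Γ, i ≠ j → j ∉ S i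

/-- FREER: the free set theorem for regular cardinals. -/
def ST_FREER.{u} : Prop := ∀ I : Type u, ℵ₁ < #I → (#I).IsRegular →
  ∀ S : I → Set I, (∀ i, (S i).Countable) →
    ∃ Γ : Set I, #Γ = #I ∧ ∀ i ∈ Γ, ∀ j ∈ Γ, i ≠ j → j ∉ S i

/-- ASSIGN: the transfinite greedy choice. -/
def ST_ASSIGN.{u} : Prop := ∀ (J : Type u) (κ : J → Cardinal.{u}) (Q : J → Type u),
  (∀ j, ℵ₀ ≤ κ j) → (∀ j, #(Q j) ≤ 2 ^ κ j) → (∀ j, 2 ^ κ j ≤ #{i : J // κ j ≤ κ i}) →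
    ∃ f : (Σ j, Q j) → J, Function.Injective f ∧ ∀ p, κ p.1 ≤ κ (f p)

/-! ### Necessity -/

/-- HB: a real `ℓ¹`-system has `L1K`. -/
def ST_HB.{u, v, w} : Prop := ∀ (𝕜 : Type v) [RCLike 𝕜] (I : Type u) (Y : Type w)
  [NormedAddCommGroup Y] [NormedSpace 𝕜 Y] (δ : ℝ) (y : I → Y), 0 < δ → (∀ i, ‖y i‖ ≤ 1) →
  (∀ (F : Finset I) (a : I → ℝ), δ * ∑ i ∈ F, |a i| ≤ ‖∑ i ∈ F, ((a i : ℝ) : 𝕜) • y i‖) →
    L1K 𝕜 I Y

/-- RIESZ: if `L¹({0,1}^I)` embeds in `Y*` and `#I > ℵ₁` then `Y` contains an `ℓ¹(I)`-system. -/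
def ST_RIESZ.{u, v, w} : Prop := ∀ (𝕜 : Type v) [RCLike 𝕜] (I : Type u) (Y : Type w)
  [NormedAddCommGroup Y] [NormedSpace 𝕜 Y] (T : Lp 𝕜 1 (coinPi I) →L[𝕜] (Y →L[𝕜] 𝕜)) (c : ℝ),
  0 < c → (∀ g, c * ‖g‖ ≤ ‖T g‖) → ℵ₁ < #I → L1K 𝕜 I Y

/-- AVG: Rademacher averages of the functionals given by `L1K`. -/
def ST_AVG.{u, v, w} : Prop := ∀ (𝕜 : Type v) [RCLike 𝕜] (I : Type u) (Y : Type w)
  [NormedAddCommGroup Y] [NormedSpace 𝕜 Y], Infinite I → L1K 𝕜 I Y →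
  ∃ (C : ℝ) (y : Finset I → Finset (Finset I) → I → Y), (∀ F 𝒮 η, ‖y F 𝒮 η‖ ≤ 1) ∧
    ∀ α : I → Bool, ∃ z : I → (Y →L[𝕜] 𝕜),
      (∀ F 𝒮 ξ η, RCLike.re (z ξ (y F 𝒮 η)) =
        if ξ = η then (if F.filter (fun i => α i = true) ∈ 𝒮 then 1 else -1) else 0) ∧
      ∀ (G : Finset I) (a : I → 𝕜), (∀ i, ‖a i‖ ≤ 1) →
        ‖∑ i ∈ G, a i • z i‖ ≤ C * Real.sqrt G.card

/-- SMALL: an upper `2`-estimate forces small differences on the pieces of small density. -/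
def ST_SMALL.{u, v} : Prop := ∀ (𝕜 : Type v) [RCLike 𝕜] {Ω : Type u} [MeasurableSpace Ω]
  (μ : Measure Ω) (𝒜 : Set (Set Ω)) (I : Type u) (C : ℝ) (z : I → Lp 𝕜 1 μ), ℵ₀ < #I →
  (∀ A ∈ 𝒜, MeasurableSet A) → 𝒜.Pairwise (fun A B => μ (A ∩ B) = 0) →
  (∀ A ∈ 𝒜, ∃ (N : Type u) (d : N → Lp 𝕜 1 (μ.restrict A)), #N < #I ∧ DenseRange d) →
  (∀ (G : Finset I) (a : I → 𝕜), (∀ i, ‖a i‖ ≤ 1) →
    ‖∑ i ∈ G, a i • z i‖ ≤ C * Real.sqrt G.card) →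
  ∀ ε : ℝ, 0 < ε → ∃ ξ η : I, ξ ≠ η ∧ ∀ G : Finset (Set Ω), (∀ A ∈ G, A ∈ 𝒜) →
    ∑ A ∈ G, ∫ x in A, ‖((z ξ - z η : Lp 𝕜 1 μ) : Ω → 𝕜) x‖ ∂μ ≤ ε

/-- TRUNC: truncation of an `L¹` function which is small on the pieces of `𝒜`. -/
def ST_TRUNC.{u, v} : Prop := ∀ (𝕜 : Type v) [RCLike 𝕜] {Ω : Type u} [MeasurableSpace Ω]
  (μ : Measure Ω) (𝒜 ℬ : Set (Set Ω)) (w : Lp 𝕜 1 μ) (ε : ℝ), 0 < ε →
  (∀ A ∈ 𝒜 ∪ ℬ, MeasurableSet A) →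
  (∀ E, MeasurableSet E → 0 < μ E → μ E ≠ ∞ → ∃ A ∈ 𝒜 ∪ ℬ, μ (A ∩ E) ≠ 0) →
  (∀ G : Finset (Set Ω), (∀ A ∈ G, A ∈ 𝒜) → ∑ A ∈ G, ∫ x in A, ‖(w : Ω → 𝕜) x‖ ∂μ ≤ ε) →
  ∃ (F : Finset ℬ) (M : ℕ) (B : Set Ω), MeasurableSet B ∧ B ⊆ ⋃ A ∈ F, (A : Set Ω) ∧
    (∀ x ∈ B, ‖(w : Ω → 𝕜) x‖ ≤ M) ∧ ∫ x in Bᶜ, ‖(w : Ω → 𝕜) x‖ ∂μ ≤ 3 * ε

/-- COUNT: the pigeonhole and sign averaging argument: `ℬ` has at least `2 ^ #I` members. -/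
def ST_COUNT.{u, v, w} : Prop := ∀ (𝕜 : Type v) [RCLike 𝕜] {Ω : Type u} [MeasurableSpace Ω]
  (μ : Measure Ω) (Y : Type w) [NormedAddCommGroup Y] [NormedSpace 𝕜 Y]
  (𝒜 ℬ : Set (Set Ω)) (I : Type u), Nonempty (Lp 𝕜 1 μ ≃L[𝕜] (Y →L[𝕜] 𝕜)) → ℵ₀ < #I →
  (∀ A ∈ 𝒜 ∪ ℬ, MeasurableSet A ∧ μ A ≠ ∞) →
  (𝒜 ∪ ℬ).Pairwise (fun A B => μ (A ∩ B) = 0) →
  (∀ E, MeasurableSet E → 0 < μ E → μ E ≠ ∞ → ∃ A ∈ 𝒜 ∪ ℬ, μ (A ∩ E) ≠ 0) →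
  (∀ A ∈ 𝒜, ∃ (N : Type u) (d : N → Lp 𝕜 1 (μ.restrict A)), #N < #I ∧ DenseRange d) →
  L1K 𝕜 I Y → 2 ^ #I ≤ #ℬ

/-- NEC: from `L1K` to `Cond`. -/
def ST_NEC.{u, v, w} : Prop := ∀ (𝕜 : Type v) [RCLike 𝕜] {Ω : Type u} [MeasurableSpace Ω]
  (μ : Measure Ω) (Y : Type w) [NormedAddCommGroup Y] [NormedSpace 𝕜 Y],
  Nonempty (Lp 𝕜 1 μ ≃L[𝕜] (Y →L[𝕜] 𝕜)) → ∀ κ : Cardinal.{u}, ℵ₀ < κ →
  (∀ I : Type u, #I = κ → (∃ (T : Lp 𝕜 1 (coinPi I) →L[𝕜] (Y →L[𝕜] 𝕜)) (c : ℝ), 0 < c ∧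
    ∀ g, c * ‖g‖ ≤ ‖T g‖) → L1K 𝕜 I Y) → Cond μ κ

end DualL1
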