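import Pool.Agent.Helper60.L1Full.Stmts

/-! Statements of the modules for the parts under the continuum hypothesis and under Martin's
axiom, and of the assembly. -/

namespace DualL1

open MeasureTheory Cardinal
open scoped ENNReal Classical

/-! ### The continuum hypothesis -/

/-- an index type of order type `ω₁` -/
abbrev W1.{u} : Type u := (Cardinal.aleph 1 : Cardinal.{u}).ord.ToType

/-- The recursively defined point `x = kx F u`: `x i = 1` iff `u i = 1` and the restriction of `x` to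
the coordinates below `i` (extended by `0`) lies in `F i`. -/
noncomputable def kx {I : Type*} [LinearOrder I] [WellFoundedLT I] (F : I → Set (I → Bool))
    (u : I → Bool) : I → Bool :=
  (wellFounded_lt : WellFounded (fun a b : I => a < b)).fix
    (fun i prev => u i && decide ((fun j => if h : j < i then prev j h else false) ∈ F i))

lemma kx_eq {I : Type*} [LinearOrder I] [WellFoundedLT I] (F : I → Set (I → Bool))
    (u : I → Bool) (i : I) :
    kx F u i = (u i && decide ((fun j => if j < i then kx F u j else false) ∈ F i)) := by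
  rw [kx, WellFounded.fix_eq]
  rfl

/-- The closed sets used in Kunen's construction. -/
structure KSys.{u} (F : W1.{u} → Set (W1.{u} → Bool)) : Prop where
  closed : ∀ i, IsClosed (F i)
  dep : ∀ i, ∀ x y : W1.{u} → Bool, (∀ j < i, x j = y j) → (x ∈ F i ↔ y ∈ F i)
  large : ∀ i, ∀ ε : ℝ≥0∞, 0 < ε → ∃ j, i ≤ j ∧ coinPi W1.{u} {u | kx F u ∉ F j} < ε
  avoid : ∀ Z : Set (W1.{u} → Bool), IsClosed Z →
    (∃ S : Set W1.{u}, S.Countable ∧
      ∀ x y : W1.{u} → Bool, (∀ j ∈ S, x j = y j) → (x ∈ Z ↔ y ∈ Z)) →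
    coinPi W1.{u} {u | kx F u ∈ Z} = 0 → ∃ γ, ∀ i, γ ≤ i → Disjoint (F i) Z

/-- the compact set of the construction -/
def kK.{u} (F : W1.{u} → Set (W1.{u} → Bool)) : Set (W1.{u} → Bool) :=
  {x | ∀ i, x i = true → x ∈ F i}

/-- KUNM: the map `kx F` is measurable. -/
def ST_KUNM.{u} : Prop := ∀ F : W1.{u} → Set (W1.{u} → Bool), (∀ i, IsClosed (F i)) →
  (∀ i, ∀ x y : W1.{u} → Bool, (∀ j < i, x j = y j) → (x ∈ F i ↔ y ∈ F i)) → Measurable (kx F)

/-- KUNA: existence of the system under CH. -/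
def ST_KUNA.{u} : Prop := (𝔠 : Cardinal.{u}) = ℵ₁ → ∃ F : W1.{u} → Set (W1.{u} → Bool), KSys F

/-- KUNT: the image of the coin measure has type everywhere at least `ℵ₁`. -/
def ST_KUNT.{u} : Prop := ∀ F : W1.{u} → Set (W1.{u} → Bool), KSys F →
  Thick ((coinPi W1.{u}).map (kx F)) ℵ₁ Set.univ

/-- KUNS: all measures on the compact set which are singular to the given one live on countably
many coordinates. -/
def ST_KUNS.{u} : Prop := ∀ F : W1.{u} → Set (W1.{u} → Bool), KSys F →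
  IsClosed (kK F) ∧ CarriedBy (kK F) ((coinPi W1.{u}).map (kx F)) ∧
    ∀ m : Measure (W1.{u} → Bool), IsProbabilityMeasure m → CarriedBy (kK F) m →
      m.MutuallySingular ((coinPi W1.{u}).map (kx F)) →
        ∃ S : Set W1.{u}, S.Countable ∧ ∀ i ∉ S, m {x | x i = true} = 0

/-- KCARD: there are few measures living on countably many coordinates. -/
def ST_KCARD.{u} : Prop := ∀ I : Type u, #I = ℵ₁ → (𝔠 : Cardinal.{u}) = ℵ₁ →
  #{m : Measure (I → Bool) // IsProbabilityMeasure m ∧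
    ∃ S : Set I, S.Countable ∧ ∀ i ∉ S, m {x | x i = true} = 0} ≤ ℵ₁

/-- SEPM: measures living on countably many coordinates have `L¹` complemented in `L¹` of every
set without atoms. -/
def ST_SEPM.{u, v} : Prop := ∀ (𝕜 : Type v) [RCLike 𝕜] {Ω : Type u} [MeasurableSpace Ω]
  (μ : Measure Ω) (B : Set Ω) (I : Type u) (m : Measure (I → Bool)), Thick μ ℵ₀ B →
  IsProbabilityMeasure m → (∃ S : Set I, S.Countable ∧ ∀ i ∉ S, m {x | x i = true} = 0) →
    Compl1 𝕜 (Lp 𝕜 1 m) (Lp 𝕜 1 (μ.restrict B))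

/-- COPIES: `L¹` of a homogeneous piece contains its `ℓ¹`-sum complemented. -/
def ST_COPIES.{u, v} : Prop := ∀ (𝕜 : Type v) [RCLike 𝕜] {Ω : Type u} [MeasurableSpace Ω]
  (μ : Measure Ω) (κ : Cardinal.{u}) (A : Set Ω), ℵ₀ ≤ κ → Hom μ κ A →
    Compl1 𝕜 (lp (fun _ : ℕ => Lp 𝕜 1 (μ.restrict A)) 1) (Lp 𝕜 1 (μ.restrict A))

/-- SUFFCH: sufficiency under CH. -/
def ST_SUFFCH.{u, v} : Prop := (𝔠 : Cardinal.{0}) = ℵ₁ → ∀ (𝕜 : Type v) [RCLike 𝕜]
  {Ω : Type u} [MeasurableSpace Ω] (μ : Measure Ω),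
  (∀ κ : Cardinal.{u}, ℵ₀ ≤ κ → κ ≠ ℵ₁ → Cond μ κ) →
    IsoToDual.{max u v, v, max u v} 𝕜 (Lp 𝕜 1 μ)

/-! ### Martin's axiom -/

/-- Martin's axiom for `ℵ₁` dense sets: for every partial order in which all antichains are countable
and every family of at most `ℵ₁` dense sets there is a filter meeting all of them. -/
def MartinAxiomAlephOne : Prop :=
  ∀ (P : Type) [PartialOrder P] [Nonempty P],
    (∀ A : Set P, (∀ a ∈ A, ∀ b ∈ A, a ≠ b → ¬ ∃ c, c ≤ a ∧ c ≤ b) → A.Countable) →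
    ∀ (ι : Type) (D : ι → Set P), #ι ≤ ℵ₁ → (∀ i p, ∃ q ∈ D i, q ≤ p) →
      ∃ G : Set P, (∀ p ∈ G, ∀ q, p ≤ q → q ∈ G) ∧
        (∀ p ∈ G, ∀ q ∈ G, ∃ r ∈ G, r ≤ p ∧ r ≤ q) ∧ ∀ i, (G ∩ D i).Nonempty

/-- MAC: the combinatorial core: under MA an `ℵ₁`-sequence of functions correlated with the
coordinates has an independent subfamily. -/
def ST_MAC.{u} : Prop := MartinAxiomAlephOne → ∀ (I : Type u), #I = ℵ₁ →
  ∀ f : I → (I → Bool) → ℝ, (∀ i, Measurable (f i)) → (∀ i, Integrable (f i) (coinPi I)) →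
  (∀ i, 0 < ∫ x, f i x * (if x i = true then 1 else -1) ∂(coinPi I)) →
  ∃ (r s : ℝ) (Γ : Set I), r < s ∧ #Γ = ℵ₁ ∧ ∀ (F : Finset I), (∀ i ∈ F, i ∈ Γ) →
    ∀ ε : I → Bool, 0 < coinPi I {x | ∀ i ∈ F, if ε i = true then s < f i x else f i x < r}

/-- MAR: under MA, if `L¹({0,1}^{ω₁})` embeds in `Y*` then `Y` contains an `ℓ¹(ω₁)`-system. -/
def ST_MAR.{u, v, w} : Prop := MartinAxiomAlephOne → ∀ (𝕜 : Type v) [RCLike 𝕜] (I : Type u)
  (Y : Type w) [NormedAddCommGroup Y] [NormedSpace 𝕜 Y]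
  (T : Lp 𝕜 1 (coinPi I) →L[𝕜] (Y →L[𝕜] 𝕜)) (c : ℝ),
  0 < c → (∀ g, c * ‖g‖ ≤ ‖T g‖) → #I = ℵ₁ → L1K 𝕜 I Y

/-! ### Assembly -/

/-- SUFF: sufficiency in ZFC. -/
def ST_SUFF.{u, v} : Prop := ∀ (𝕜 : Type v) [RCLike 𝕜] {Ω : Type u} [MeasurableSpace Ω]
  (μ : Measure Ω), (∀ κ : Cardinal.{u}, ℵ₀ ≤ κ → Cond μ κ) →
    IsoToDual.{max u v, v, max u v} 𝕜 (Lp 𝕜 1 μ)

/-- NECO: necessity of `Cond μ ℵ₀`. -/
def ST_NECO.{u, v, w} : Prop := ∀ (𝕜 : Type v) [RCLike 𝕜] {Ω : Type u} [MeasurableSpace Ω]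
  (μ : Measure Ω) (Y : Type w) [NormedAddCommGroup Y] [NormedSpace 𝕜 Y],
  Nonempty (Lp 𝕜 1 μ ≃L[𝕜] (Y →L[𝕜] 𝕜)) → Cond μ ℵ₀

end DualL1
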