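import Pool.Agent.Helper60.L1Full.Stmts2

/-! Statement of the example module. -/

namespace DualL1

open MeasureTheory Cardinal

/-- EX: there is a measure satisfying `Cond μ κ` for all infinite `κ ≠ ℵ₁` but not for `ℵ₁`: the disjoint
sum of the coin measure on `{0,1}^{ω₁}` and of continuum many copies of a nonatomic measure of
countable type. -/
def ST_EX : Prop := ∃ (Ω : Type) (_ : MeasurableSpace Ω) (μ : Measure Ω),
  (∀ κ : Cardinal.{0}, ℵ₀ ≤ κ → κ ≠ ℵ₁ → Cond μ κ) ∧ ¬ Cond μ ℵ₁

end DualL1
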